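import Mathlib
import Pool.Agent.H932R3.Nagata

set_option autoImplicit false

/-!
# Vanishing for general monomial collisions, multiplicities polynomial in the number of points

For every `e` there is an `N` such that for all `r ≥ N`, all `m ≥ 1` and all `d` with
`d ≤ m √r` and `m ≤ r ^ e`, or with `(1 + r ^ (-e)) d ≤ m √r`, the subscheme of the plane with
ideal `(y - (a₀ + a₁ x + ... + a_(r-1) x ^ (r-1)), (x - c) ^ r) ^ m` lies on no curve of degree
`d`, for all `(c, a)` outside a hypersurface.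
-/

namespace Pool.Agent.Results.MP_cea741_ag.CollisionPolynomial

open Polynomial

theorem result (k : Type*) [Field k] [IsAlgClosed k] (e : ℕ) :
    ∃ N : ℕ, ∀ r : ℕ, N ≤ r → ∀ m d : ℕ, 0 < m →
      (∀ q : ℕ, 0 < q → q ≤ r ^ 2 * (d + 1) → (q : k) ≠ 0) →
      (((d : ℝ) ≤ m * Real.sqrt r ∧ m ≤ r ^ e) ∨
        (1 + 1 / (r : ℝ) ^ e) * d ≤ m * Real.sqrt r) →
      ∃ F : MvPolynomial (Fin (r + 1)) k, F ≠ 0 ∧
        ∀ (c : k) (a : Fin r → k), MvPolynomial.eval (Fin.cons c a : Fin (r + 1) → k) F ≠ 0 →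
          ∀ P : MvPolynomial (Fin 3) k, P.IsHomogeneous d →
            (MvPolynomial.aeval ![C X, X, 1] : MvPolynomial (Fin 3) k →ₐ[k] k[X][X]) P ∈
              (Ideal.span {X - C (∑ j : Fin r, C (a j) * X ^ (j : ℕ)), C ((X - C c) ^ r)} :
                Ideal k[X][X]) ^ m →
            P = 0 := by
  obtain ⟨N, hN16, hN⟩ := H932R3.exists_empt e
  refine ⟨N, fun r hr m d hm hchar h => ?_⟩
  have : Infinite k := IsAlgClosed.instInfinite
  have hr0 : 0 < r := by omega
  have hrR : (16 : ℝ) ≤ r := by exact_mod_cast (show 16 ≤ r by omega)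
  have hs0 : 0 ≤ Real.sqrt r := Real.sqrt_nonneg _
  have hss : Real.sqrt r * Real.sqrt r = r := Real.mul_self_sqrt (by linarith)
  have hs4 : 4 ≤ Real.sqrt r := by
    by_contra hcon
    push Not at hcon
    nlinarith
  have hm1 : (1 : ℝ) ≤ m := by exact_mod_cast hm
  have key : ∀ d' : ℕ, 0 < d' → d' ≤ d + 1 →
      (((d' : ℝ) ≤ m * Real.sqrt r ∧ m ≤ r ^ e) ∨
        (1 + 1 / (r : ℝ) ^ e) * d' ≤ m * Real.sqrt r) →
      ∃ F : MvPolynomial (Fin (r + 1)) k, F ≠ 0 ∧
        ∀ (c : k) (a : Fin r → k), MvPolynomial.eval (Fin.cons c a : Fin (r + 1) → k) F ≠ 0 →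
          H932R3.NoForm (H932R2.jetIdeal m c a) d' := by
    intro d' hd' hle h'
    refine H932R3.collision_empty (fun q hq hq' => hchar q hq ?_) hr0 hd' (hN r hr m d' hd' ?_)
    · exact hq'.trans (Nat.mul_le_mul_left _ hle)
    · rcases h' with ⟨h1, h2⟩ | h1
      · refine Or.inl ⟨?_, h2⟩
        have h3 := pow_le_pow_left₀ (Nat.cast_nonneg d') h1 2
        rw [mul_pow, pow_two (Real.sqrt (r : ℝ)), hss] at h3
        have h4 : d' ^ 2 ≤ m ^ 2 * r := by exact_mod_cast h3
        rw [mul_comm r]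
        exact h4
      · exact Or.inr h1
  rcases Nat.eq_zero_or_pos d with rfl | hd
  · obtain ⟨F, hF, hF'⟩ := key 1 one_pos (by norm_num) (by
      right
      have h1 : (1 : ℝ) ≤ (r : ℝ) ^ e := one_le_pow₀ (by linarith)
      have h2 : 1 / (r : ℝ) ^ e ≤ 1 := by
        rw [div_le_one (by linarith)]
        exact h1
      push_cast
      nlinarith)
    refine ⟨F, hF, fun c a hFe P hP hP' => ?_⟩
    exact (hF' c a hFe).mono (Nat.zero_le 1) P hP hP'
  · obtain ⟨F, hF, hF'⟩ := key d hd (by omega) h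
    exact ⟨F, hF, fun c a hFe P hP hP' => hF' c a hFe P hP hP'⟩

end Pool.Agent.Results.MP_cea741_ag.CollisionPolynomial
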