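import Mathlib
import Pool.Agent.H932R3.Explicit

set_option autoImplicit false

/-!
# Vanishing for general monomial collisions: an explicit range, quadratic in the number of points

For every `r > 9` and every `m ≥ 1` with `m ≤ r - 6 √r + 11` or `128 m ≤ r ^ 2` the subscheme of the
plane with ideal `(y - (a₀ + a₁ x + ... + a_(r-1) x ^ (r-1)), (x - c) ^ r) ^ m` lies on no curve of
degree `d ≤ m √r`, for all `(c, a)` outside a hypersurface.
-/

namespace Pool.Agent.Results.MP_cea741_ag.CollisionQuadratic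

open Polynomial

theorem result (k : Type*) [Field k] [IsAlgClosed k] (r : ℕ) (hr : 9 < r) (m : ℕ) (hm : 0 < m)
    (hchar : ∀ q : ℕ, 0 < q → q ≤ r ^ 2 * (m + r) → (q : k) ≠ 0)
    (h : (m : ℝ) ≤ r - 6 * Real.sqrt r + 11 ∨ 128 * m ≤ r ^ 2) :
    ∃ F : MvPolynomial (Fin (r + 1)) k, F ≠ 0 ∧
      ∀ (c : k) (a : Fin r → k), MvPolynomial.eval (Fin.cons c a : Fin (r + 1) → k) F ≠ 0 →
        ∀ d : ℕ, (d : ℝ) ≤ m * Real.sqrt r →
          ∀ P : MvPolynomial (Fin 3) k, P.IsHomogeneous d →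
            (MvPolynomial.aeval ![C X, X, 1] : MvPolynomial (Fin 3) k →ₐ[k] k[X][X]) P ∈
              (Ideal.span {X - C (∑ j : Fin r, C (a j) * X ^ (j : ℕ)), C ((X - C c) ^ r)} :
                Ideal k[X][X]) ^ m →
            P = 0 := by
  have : Infinite k := IsAlgClosed.instInfinite
  obtain ⟨D, hD⟩ : ∃ D, D = Nat.sqrt (r * m ^ 2) := ⟨_, rfl⟩
  have hD1 : D ^ 2 ≤ r * m ^ 2 := by
    rw [hD, pow_two]
    exact Nat.sqrt_le _
  have h' : (m : ℝ) ≤ r - 6 * Real.sqrt r + 11 ∨ H932R3.Expl r m D := by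
    rcases h with h | h
    · exact Or.inl h
    · rw [hD]
      exact H932R3.range_cases hr hm h
  have key : ∃ F : MvPolynomial (Fin (r + 1)) k, F ≠ 0 ∧
      ∀ (c : k) (a : Fin r → k), MvPolynomial.eval (Fin.cons c a : Fin (r + 1) → k) F ≠ 0 →
        H932R3.NoForm (H932R2.jetIdeal m c a) D := by
    rcases h' with h' | h'
    · refine H932R3.collision_small hr hm (fun q hq hq' => hchar q hq (hq'.trans ?_)) h' hD1
      calc r * (m + 1) ≤ r * (m + r) := Nat.mul_le_mul_left _ (by omega)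
        _ ≤ r * (r * (m + r)) := Nat.mul_le_mul_left _ (Nat.le_mul_of_pos_left _ (by omega))
        _ = r ^ 2 * (m + r) := by ring
    · exact H932R3.collision_expl hchar (by omega) hD1 h'
  obtain ⟨F, hF, hF'⟩ := key
  refine ⟨F, hF, fun c a hFe d hd P hP hP' => ?_⟩
  refine (hF' c a hFe).mono ?_ P hP hP'
  rw [hD]
  refine Nat.le_sqrt.2 ?_
  have h1 : (d : ℝ) * d ≤ r * (m : ℝ) ^ 2 := by
    calc (d : ℝ) * d ≤ (m * Real.sqrt r) * (m * Real.sqrt r) :=
          mul_le_mul hd hd (Nat.cast_nonneg d) (by positivity)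
      _ = (Real.sqrt r * Real.sqrt r) * (m : ℝ) ^ 2 := by ring
      _ = r * (m : ℝ) ^ 2 := by rw [Real.mul_self_sqrt (Nat.cast_nonneg r)]
  exact_mod_cast h1

end Pool.Agent.Results.MP_cea741_ag.CollisionQuadratic
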